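import Mathlib
import Pool.Agent.Q192.PairTT
import Pool.Agent.Q192.LpOps

set_option autoImplicit false

namespace Pool.Agent.Results.MP_b56e9d_an.IndexObstruction

open Pool.Agent.Q192.PairTT Pool.Agent.Q192.LpOps

universe u

theorem fredholm_shift : IsFredholmOp fshift ∧ index fshift = -1 := by
  have hr : LinearMap.range (fshift : L ℕ →ₗ[ℂ] L ℕ) =
      LinearMap.ker ((coord (0 : ℕ)) : L ℕ →ₗ[ℂ] ℂ) := by
    ext x
    rw [LinearMap.mem_range, LinearMap.mem_ker]
    exact mem_range_fshift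
  have hsurj : Function.Surjective ((coord (0 : ℕ)) : L ℕ →ₗ[ℂ] ℂ) := by
    intro c
    refine ⟨lp.single 2 0 c, ?_⟩
    exact lp.single_apply_self (E := fun _ : ℕ => ℂ) 2 0 c
  have e : ((L ℕ) ⧸ LinearMap.range (fshift : L ℕ →ₗ[ℂ] L ℕ)) ≃ₗ[ℂ] ℂ := by
    rw [hr]
    exact LinearMap.quotKerEquivOfSurjective _ hsurj
  have hk : LinearMap.ker (fshift : L ℕ →ₗ[ℂ] L ℕ) = ⊥ := by
    rw [LinearMap.ker_eq_bot']
    intro x hx
    exact fshift_inj hx
  refine ⟨⟨?_, ?_, ?_⟩, ?_⟩
  · have h1 : Set.range fshift = (fun x : L ℕ => x 0) ⁻¹' {0} := by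
      ext x
      exact mem_range_fshift
    rw [h1]
    exact (isClosed_singleton).preimage (continuous_coord 0)
  · rw [hk]
    infer_instance
  · exact Module.Finite.equiv e.symm
  · unfold index
    rw [hk, finrank_bot, e.finrank_eq, Module.finrank_self]
    norm_num

/-- For every Fredholm operator `T` of non-zero index on a Hilbert space there are no compact
operators `K₁`, `K₂` such that `(T + K₁, T + K₂)` is a commuting invertible pair; and there are
Fredholm operators of non-zero index. -/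
theorem result :
    (∀ (H : Type u) [NormedAddCommGroup H] [InnerProductSpace ℂ H] [CompleteSpace H]
      (T : H →L[ℂ] H), IsFredholmOp T → index T ≠ 0 →
      ¬ ∃ K₁ K₂ : H →L[ℂ] H, IsCompactOperator K₁ ∧ IsCompactOperator K₂ ∧
        InvertiblePair (T + K₁) (T + K₂)) ∧
    ∃ (H : Type) (_ : NormedAddCommGroup H) (_ : InnerProductSpace ℂ H) (_ : CompleteSpace H)
      (T : H →L[ℂ] H), IsFredholmOp T ∧ index T ≠ 0 := by
  refine ⟨?_, ?_⟩
  · intro H _ _ _ T hT hi
    rintro ⟨K₁, K₂, h1, h2, h⟩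
    exact hi (index_eq_zero hT h1 h2 h)
  · exact ⟨L ℕ, inferInstance, inferInstance, inferInstance, fshift, fredholm_shift.1, by
      rw [fredholm_shift.2]; norm_num⟩

end Pool.Agent.Results.MP_b56e9d_an.IndexObstruction
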